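import Pool.Agent.H380Z.Hol.Main

set_option autoImplicit false

namespace Pool.Agent.Results.MP_fe2450_an.AHolderEveryP

/-- For every continuous real function `f` on the circle `ℝ / ℤ` and every `p > 1` there is a
Hoelder homeomorphism `h` of the circle such that the Fourier coefficients of `f ∘ h` lie in
`ℓ^p (ℤ)`. -/
theorem result (f : C(AddCircle (1 : ℝ), ℝ)) (p : ℝ) (hp : 1 < p) :
    ∃ h : AddCircle (1 : ℝ) ≃ₜ AddCircle (1 : ℝ),
      (∃ C α : ℝ, 0 < α ∧ α ≤ 1 ∧ ∀ x y, dist (h x) (h y) ≤ C * dist x y ^ α) ∧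
      Summable fun n : ℤ => ‖fourierCoeff (fun x => ((f (h x) : ℝ) : ℂ)) n‖ ^ p :=
  Pool.Agent.H380Z.Hol.main f p hp

end Pool.Agent.Results.MP_fe2450_an.AHolderEveryP
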